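import Mathlib

/-!
# Polynomials on disjoint intervals of a line

The sign of a real polynomial of degree at most `d`, and the fact that its absolute value is larger
than a bound, are constant on all but `2 d` of the intervals `[a + s u, a + s (u + 1))`.
-/

set_option autoImplicit false

namespace Pool.Agent.Helper71.PL

open Finset

/-- The interval number `u`. -/
def Iv (a s : ℝ) (u : ℕ) : Set ℝ := Set.Ico (a + s * u) (a + s * (u + 1))

theorem iv_disj {a s : ℝ} (hs : 0 < s) {u w : ℕ} {t : ℝ} (hu : t ∈ Iv a s u) (hw : t ∈ Iv a s w) :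
    u = w := by
  unfold Iv at hu hw
  rw [Set.mem_Ico] at hu hw
  have h1 : (u : ℝ) < w + 1 := by
    by_contra h
    push Not at h
    have := mul_le_mul_of_nonneg_left h hs.le
    linarith [hu.1, hw.2]
  have h2 : (w : ℝ) < u + 1 := by
    by_contra h
    push Not at h
    have := mul_le_mul_of_nonneg_left h hs.le
    linarith [hw.1, hu.2]
  have h3 : u < w + 1 := by exact_mod_cast h1
  have h4 : w < u + 1 := by exact_mod_cast h2
  omega

open Classical in
/-- A nonzero polynomial has roots in at most `d` of the intervals. -/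
theorem card_root_iv {M d : ℕ} (h : Polynomial ℝ) (hd : h.natDegree ≤ d) (h0 : h ≠ 0) {a s : ℝ}
    (hs : 0 < s) :
    ((univ : Finset (Fin M)).filter fun u : Fin M => ∃ t ∈ Iv a s u.val, h.eval t = 0).card ≤ d := by
  have hch : ∀ u : Fin M, ∃ t : ℝ, (∃ t ∈ Iv a s u.val, h.eval t = 0) → t ∈ Iv a s u.val ∧ h.eval t = 0 := by
    intro u
    by_cases hu : ∃ t ∈ Iv a s u.val, h.eval t = 0
    · obtain ⟨t, ht1, ht2⟩ := hu
      exact ⟨t, fun _ => ⟨ht1, ht2⟩⟩
    · exact ⟨0, fun hh => absurd hh hu⟩
  choose f hf using hch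
  have hle : ((univ : Finset (Fin M)).filter fun u : Fin M => ∃ t ∈ Iv a s u.val, h.eval t = 0).card ≤
      h.roots.toFinset.card := by
    refine card_le_card_of_injOn f ?_ ?_
    · intro u hu
      have hu' := (mem_filter.1 (mem_coe.1 hu)).2
      rw [mem_coe, Multiset.mem_toFinset, Polynomial.mem_roots h0, Polynomial.IsRoot]
      exact (hf u hu').2
    · intro u hu w hw he
      have hu' := (hf u (mem_filter.1 (mem_coe.1 hu)).2).1
      have hw' := (hf w (mem_filter.1 (mem_coe.1 hw)).2).1
      rw [he] at hu'
      exact Fin.ext (iv_disj hs hu' hw')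
  exact hle.trans ((Multiset.toFinset_card_le _).trans ((Polynomial.card_roots' h).trans hd))

/-- Intermediate values in an interval. -/
theorem exists_root_iv (h : Polynomial ℝ) {a s : ℝ} {u : ℕ} {t0 t1 : ℝ} (h0 : t0 ∈ Iv a s u)
    (h1 : t1 ∈ Iv a s u) (hle : h.eval t1 ≤ 0) (hge : 0 ≤ h.eval t0) :
    ∃ t ∈ Iv a s u, h.eval t = 0 := by
  have hc : (Iv a s u).OrdConnected := Set.ordConnected_Ico
  have hpc : IsPreconnected (Iv a s u) := isPreconnected_Ico
  have := hpc.intermediate_value h1 h0 (h.continuous.continuousOn)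
  obtain ⟨t, ht, ht2⟩ := this ⟨hle, hge⟩
  exact ⟨t, ht, ht2⟩

open Classical in
/-- The bad intervals of a polynomial: `|h| > e` at some point of the interval, and at some other
point `|h| > e` fails or the sign is different. -/
noncomputable def BadIv (M : ℕ) (h : Polynomial ℝ) (e a s : ℝ) : Finset (Fin M) :=
  univ.filter fun u : Fin M => ∃ t0 ∈ Iv a s u.val, ∃ t1 ∈ Iv a s u.val, e < |h.eval t0| ∧
    ¬ (e < |h.eval t1| ∧ SignType.sign (h.eval t1) = SignType.sign (h.eval t0))

theorem card_badIv {M d : ℕ} (h : Polynomial ℝ) (hd : h.natDegree ≤ d) {e a s : ℝ} (he : 0 ≤ e)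
    (hs : 0 < s) : (BadIv M h e a s).card ≤ 2 * d := by
  classical
  have hdeg1 : (h - Polynomial.C e).natDegree ≤ d := by
    rw [Polynomial.natDegree_sub_C]
    exact hd
  have hdeg2 : (h + Polynomial.C e).natDegree ≤ d := by
    rw [Polynomial.natDegree_add_C]
    exact hd
  have hsub : BadIv M h e a s ⊆
      ((univ : Finset (Fin M)).filter fun u : Fin M => h - Polynomial.C e ≠ 0 ∧
        ∃ t ∈ Iv a s u.val, (h - Polynomial.C e).eval t = 0) ∪
      ((univ : Finset (Fin M)).filter fun u : Fin M => h + Polynomial.C e ≠ 0 ∧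
        ∃ t ∈ Iv a s u.val, (h + Polynomial.C e).eval t = 0) := by
    intro u hu
    unfold BadIv at hu
    rw [mem_filter] at hu
    obtain ⟨-, t0, ht0, t1, ht1, hlt, hn⟩ := hu
    rw [mem_union, mem_filter, mem_filter]
    rcases lt_abs.1 hlt with hpos | hneg
    · left
      refine ⟨mem_univ _, ?_, ?_⟩
      · intro hz
        have := congrArg (Polynomial.eval t0) hz
        rw [Polynomial.eval_sub, Polynomial.eval_C, Polynomial.eval_zero] at this
        linarith
      · refine exists_root_iv _ ht0 ht1 ?_ ?_
        · rw [Polynomial.eval_sub, Polynomial.eval_C]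
          by_contra hc
          push Not at hc
          apply hn
          have h1 : e < h.eval t1 := by linarith
          refine ⟨lt_of_lt_of_le h1 (le_abs_self _), ?_⟩
          rw [sign_pos (by linarith), sign_pos (by linarith)]
        · rw [Polynomial.eval_sub, Polynomial.eval_C]
          linarith
    · right
      refine ⟨mem_univ _, ?_, ?_⟩
      · intro hz
        have := congrArg (Polynomial.eval t0) hz
        rw [Polynomial.eval_add, Polynomial.eval_C, Polynomial.eval_zero] at this
        linarith
      · refine exists_root_iv _ ht1 ht0 ?_ ?_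
        · rw [Polynomial.eval_add, Polynomial.eval_C]
          linarith
        · rw [Polynomial.eval_add, Polynomial.eval_C]
          by_contra hc
          push Not at hc
          apply hn
          have h1 : h.eval t1 < -e := by linarith
          refine ⟨lt_of_lt_of_le (by linarith : e < -h.eval t1) (neg_le_abs _), ?_⟩
          rw [sign_neg (by linarith), sign_neg (by linarith)]
  refine (card_le_card hsub).trans ((card_union_le _ _).trans ?_)
  have key : ∀ q : Polynomial ℝ, q.natDegree ≤ d →
      ((univ : Finset (Fin M)).filter fun u : Fin M => q ≠ 0 ∧ ∃ t ∈ Iv a s u.val, q.eval t = 0).card ≤ d := by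
    intro q hq
    by_cases h0 : q = 0
    · rw [filter_eq_empty_iff.2 (fun u _ hu => hu.1 h0)]
      simp
    · refine le_trans (card_le_card ?_) (card_root_iv (M := M) q hq h0 (a := a) hs)
      intro u hu
      rw [mem_filter] at hu ⊢
      exact ⟨mem_univ _, hu.2.2⟩
  have := key _ hdeg1
  have := key _ hdeg2
  omega

/-- On the other intervals the sign and the inequality `e < |h|` are constant. -/
theorem not_badIv {M : ℕ} {h : Polynomial ℝ} {e a s : ℝ} {u : Fin M} (hu : u ∉ BadIv M h e a s)
    {t0 t1 : ℝ} (h0 : t0 ∈ Iv a s u) (h1 : t1 ∈ Iv a s u) (hlt : e < |h.eval t0|) :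
    e < |h.eval t1| ∧ SignType.sign (h.eval t1) = SignType.sign (h.eval t0) := by
  classical
  by_contra hn
  exact hu (mem_filter.2 ⟨mem_univ _, t0, h0, t1, h1, hlt, hn⟩)

/-! ## A polynomial in one of the variables -/

section line

variable {ι : Type} [DecidableEq ι]

/-- The polynomial as a polynomial in the variable number `x`. -/
noncomputable def lineP (p : MvPolynomial ι ℝ) (v : ι → ℝ) (x : ι) : Polynomial ℝ :=
  MvPolynomial.aeval (fun i => if i = x then Polynomial.X else Polynomial.C (v i)) p

theorem lineP_eval (p : MvPolynomial ι ℝ) (v : ι → ℝ) (x : ι) (t : ℝ) :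
    (lineP p v x).eval t = MvPolynomial.eval (Function.update v x t) p := by
  unfold lineP
  rw [← Polynomial.coe_evalRingHom, ← AlgHom.coe_toRingHom, ← RingHom.comp_apply]
  congr 1
  apply MvPolynomial.ringHom_ext
  · intro r
    simp
  · intro i
    by_cases hi : i = x
    · subst hi
      simp
    · simp [hi]

theorem lineP_natDegree (p : MvPolynomial ι ℝ) (v : ι → ℝ) (x : ι) :
    (lineP p v x).natDegree ≤ p.totalDegree := by
  unfold lineP
  rw [MvPolynomial.aeval_def, MvPolynomial.eval₂_eq]
  refine Polynomial.natDegree_sum_le_of_forall_le _ _ fun m hm => ?_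
  refine (Polynomial.natDegree_mul_le).trans ?_
  have h1 : (algebraMap ℝ (Polynomial ℝ) (MvPolynomial.coeff m p)).natDegree = 0 := by
    rw [← Polynomial.C_eq_algebraMap, Polynomial.natDegree_C]
  rw [h1, zero_add]
  refine (Polynomial.natDegree_prod_le _ _).trans ?_
  refine le_trans ?_ (MvPolynomial.le_totalDegree hm)
  rw [Finsupp.sum]
  refine sum_le_sum fun i _ => ?_
  refine (Polynomial.natDegree_pow_le).trans ?_
  split_ifs
  · rw [Polynomial.natDegree_X, mul_one]
  · rw [Polynomial.natDegree_C, mul_zero]
    exact Nat.zero_le _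

end line

end Pool.Agent.Helper71.PL
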