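import Pool.Agent.Helper64.PL.Levels
import Pool.Agent.Helper71.PL.Line

/-!
# Planting: the small part of one value does not matter

`S` is a set of elements, the values of the elements of `S` are `L * strc + nu`. If the element `x` of `S` is
not revealed on level `k`, then its value may be replaced by `L * strc + w` for every `0 ≤ w < L`: except for a
proportion of `2 |S| d / M` of the masks the sign of a polynomial is the same, and it is still larger than `err`.
-/

set_option autoImplicit false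

namespace Pool.Agent.Helper71.PL

open Finset
open Pool.Agent.Helper23.SP (pre)
open Pool.Agent.Helper21.DS (mt mem_mt mt_anti mt_zero strc)
open Pool.Agent.Helper64.PL (fv upd upd_same upd_of_ne avg_mask tail_lt exists_level)

variable {El : Type} [DecidableEq El] {k b M : ℕ} [NeZero b]

/-- The values: those of the elements of `S` are given by the masks, the others are arbitrary. -/
def av (L Y : ℕ) (S : Finset El) (u : Fin k → (Fin k → Fin b) → Fin M) (dg : El → Fin k → Fin b) (nu : El → ℤ)
    (y : El → ℝ) (e : El) : ℝ :=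
  if e ∈ S then (fv L Y u dg nu e : ℝ) else y e

/-- The bad event of one element and one query. -/
def PBad (L Y : ℕ) (S : Finset El) (dg : El → Fin k → Fin b) (nu : El → ℤ) (y : El → ℝ) (g : MvPolynomial El ℝ)
    (err : ℝ) (x : El) (u : Fin k → (Fin k → Fin b) → Fin M) : Prop :=
  err < |MvPolynomial.eval (av L Y S u dg nu y) g| ∧ ∃ w : ℤ, 0 ≤ w ∧ w < L ∧
    ¬ (err < |MvPolynomial.eval (Function.update (av L Y S u dg nu y) x
        (((L : ℤ) * strc Y u (dg x) + w : ℤ) : ℝ)) g| ∧
      SignType.sign (MvPolynomial.eval (Function.update (av L Y S u dg nu y) x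
        (((L : ℤ) * strc Y u (dg x) + w : ℤ) : ℝ)) g) =
      SignType.sign (MvPolynomial.eval (av L Y S u dg nu y) g))

open Classical in
/-- One element. -/
theorem plant_one {L Y d : ℕ} (hL : 0 < L) (hY : M ≤ Y) (S : Finset El) (dg : El → Fin k → Fin b) (nu : El → ℤ)
    (hnu : ∀ e ∈ S, 0 ≤ nu e ∧ nu e < L) (y : El → ℝ) (g : MvPolynomial El ℝ) (hg : g.totalDegree ≤ d) {err : ℝ}
    (herr : 0 ≤ err) {x : El} (hx : x ∈ S) (hxk : x ∉ mt S dg k) :
    (univ.filter fun u : Fin k → (Fin k → Fin b) → Fin M => PBad L Y S dg nu y g err x u).card * M ≤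
      2 * d * Fintype.card (Fin k → (Fin k → Fin b) → Fin M) := by
  rcases Nat.eq_zero_or_pos M with hM | hM
  · rw [hM, Nat.mul_zero]
    exact Nat.zero_le _
  obtain ⟨i, hi1, hi2⟩ := exists_level hx hxk
  refine avg_mask (d := 2 * d) (fun u => PBad L Y S dg nu y g err x u) i (pre (i.val + 1) (dg x)) fun u => ?_
  have hne : ∀ e' ∈ S, e' ≠ x → pre (i.val + 1) (dg e') ≠ pre (i.val + 1) (dg x) := by
    intro e' he' hne h
    exact hi2 (mem_mt.2 ⟨hx, Or.inr ⟨e', he', hne, h⟩⟩)
  have hcell : ∀ e' ∈ S, e' ≠ x → ∀ (t : Fin M) (j : Fin k),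
      upd u i (pre (i.val + 1) (dg x)) t j (pre (j.val + 1) (dg e')) = u j (pre (j.val + 1) (dg e')) := by
    intro e' he' h1 t j
    refine upd_of_ne _ _ _ _ ?_
    by_cases h2 : j = i
    · subst h2
      exact Or.inr (hne e' he' h1)
    · exact Or.inl h2
  have hfv : ∀ e' ∈ S, e' ≠ x → ∀ t : Fin M, fv L Y (upd u i (pre (i.val + 1) (dg x)) t) dg nu e' =
      fv L Y u dg nu e' := by
    intro e' he' h1 t
    unfold fv strc
    rw [sum_congr rfl fun j _ => by rw [hcell e' he' h1 t j]]
  -- the values of `x`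
  set σ : ℤ := (L : ℤ) * (Y : ℤ) ^ (k - 1 - i.val) with hσ
  set A : ℤ := ∑ j : Fin k, if j.val < i.val then
    (L : ℤ) * (Y : ℤ) ^ (k - 1 - j.val) * ((u j (pre (j.val + 1) (dg x)) : ℕ) : ℤ) else 0 with hA
  set B : ℤ := ∑ j : Fin k, if i.val < j.val then
    (L : ℤ) * (Y : ℤ) ^ (k - 1 - j.val) * ((u j (pre (j.val + 1) (dg x)) : ℕ) : ℤ) else 0 with hB
  have hσ0 : 0 < σ := by
    have h1 : (0 : ℤ) < L := by exact_mod_cast hL
    have h2 : (0 : ℤ) < Y := by exact_mod_cast lt_of_lt_of_le hM hY
    positivity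
  have hB0 : 0 ≤ B := by
    refine sum_nonneg fun j _ => ?_
    split_ifs
    · positivity
    · exact le_rfl
  have hBσ : ∀ w : ℤ, w < L → B + w < σ := fun w hw => tail_lt hY i (fun j => u j (pre (j.val + 1) (dg x))) w hw
  have hst : ∀ t : Fin M, (L : ℤ) * strc Y (upd u i (pre (i.val + 1) (dg x)) t) (dg x) =
      A + σ * ((t : ℕ) : ℤ) + B := by
    intro t
    unfold strc
    rw [hA, hB, mul_sum]
    have h2 : σ * ((t : ℕ) : ℤ) = ∑ j : Fin k, if j = i then σ * ((t : ℕ) : ℤ) else 0 := by
      rw [sum_ite_eq' univ i, if_pos (mem_univ _)]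
    rw [h2, ← sum_add_distrib, ← sum_add_distrib]
    refine sum_congr rfl fun j _ => ?_
    rcases lt_trichotomy j.val i.val with h3 | h3 | h3
    · have h4 : j ≠ i := fun h => by rw [h] at h3; exact lt_irrefl _ h3
      rw [if_pos h3, if_neg h4, if_neg (not_lt.2 h3.le), upd_of_ne _ _ _ _ (Or.inl h4)]
      ring
    · have h4 : j = i := Fin.ext h3
      subst h4
      rw [if_neg (lt_irrefl _), if_pos rfl, upd_same]
      ring
    · have h4 : j ≠ i := fun h => by rw [h] at h3; exact lt_irrefl _ h3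
      rw [if_neg (not_lt.2 h3.le), if_neg h4, if_pos h3, upd_of_ne _ _ _ _ (Or.inl h4)]
      ring
  -- the polynomial in the value of `x`
  set v0 : El → ℝ := av L Y S u dg nu y with hv0
  have hw : ∀ (t : Fin M) (z : ℝ), Function.update (av L Y S (upd u i (pre (i.val + 1) (dg x)) t) dg nu y) x z =
      Function.update v0 x z := by
    intro t z
    funext e'
    by_cases h1 : e' = x
    · subst h1
      rw [Function.update_self, Function.update_self]
    · rw [Function.update_of_ne h1, Function.update_of_ne h1, hv0]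
      unfold av
      by_cases h2 : e' ∈ S
      · rw [if_pos h2, if_pos h2, hfv e' h2 h1 t]
      · rw [if_neg h2, if_neg h2]
  have hself : ∀ t : Fin M, av L Y S (upd u i (pre (i.val + 1) (dg x)) t) dg nu y =
      Function.update v0 x (((L : ℤ) * strc Y (upd u i (pre (i.val + 1) (dg x)) t) (dg x) + nu x : ℤ) : ℝ) := by
    intro t
    rw [← hw t]
    funext e'
    by_cases h1 : e' = x
    · subst h1
      rw [Function.update_self]
      unfold av
      rw [if_pos hx]
      unfold fv
      rfl
    · rw [Function.update_of_ne h1]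
  have hiv : ∀ (t : Fin M) (w : ℤ), 0 ≤ w → w < L →
      (((L : ℤ) * strc Y (upd u i (pre (i.val + 1) (dg x)) t) (dg x) + w : ℤ) : ℝ) ∈
        Iv (A : ℝ) (σ : ℝ) (t : ℕ) := by
    intro t w hw0 hwL
    rw [hst t]
    unfold Iv
    rw [Set.mem_Ico]
    have h1 : A + σ * ((t : ℕ) : ℤ) ≤ A + σ * ((t : ℕ) : ℤ) + B + w := by linarith
    have h2 : A + σ * ((t : ℕ) : ℤ) + B + w < A + σ * (((t : ℕ) : ℤ) + 1) := by
      have := hBσ w hwL
      rw [mul_add, mul_one]
      linarith
    constructor
    · exact_mod_cast h1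
    · exact_mod_cast h2
  refine le_trans (card_le_card (t := BadIv M (lineP g v0 x) err (A : ℝ) (σ : ℝ)) ?_)
    (card_badIv (lineP g v0 x) ((lineP_natDegree g v0 x).trans hg) herr (by exact_mod_cast hσ0))
  intro t ht
  rw [mem_filter] at ht
  obtain ⟨-, h1, w, hw0, hwL, h2⟩ := ht
  rw [hw t, ← lineP_eval] at h2
  rw [hself t, ← lineP_eval] at h1 h2
  unfold BadIv
  rw [mem_filter]
  exact ⟨mem_univ _, _, hiv t (nu x) (hnu x hx).1 (hnu x hx).2, _, hiv t w hw0 hwL, h1, h2⟩

open Classical in
/-- All elements of `S` that are not revealed on level `k`. -/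
theorem plant_all {L Y d : ℕ} (hL : 0 < L) (hY : M ≤ Y) (S : Finset El) (dg : El → Fin k → Fin b) (nu : El → ℤ)
    (hnu : ∀ e ∈ S, 0 ≤ nu e ∧ nu e < L) (y : El → ℝ) (g : MvPolynomial El ℝ) (hg : g.totalDegree ≤ d) {err : ℝ}
    (herr : 0 ≤ err) :
    (univ.filter fun u : Fin k → (Fin k → Fin b) → Fin M =>
      ∃ x ∈ S, x ∉ mt S dg k ∧ PBad L Y S dg nu y g err x u).card * M ≤
      S.card * (2 * d) * Fintype.card (Fin k → (Fin k → Fin b) → Fin M) := by
  have hsub : (univ.filter fun u : Fin k → (Fin k → Fin b) → Fin M =>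
      ∃ x ∈ S, x ∉ mt S dg k ∧ PBad L Y S dg nu y g err x u) ⊆
      S.biUnion fun x => univ.filter fun u : Fin k → (Fin k → Fin b) → Fin M =>
        x ∉ mt S dg k ∧ PBad L Y S dg nu y g err x u := by
    intro u hu
    rw [mem_filter] at hu
    obtain ⟨-, x, hx, h1, h2⟩ := hu
    rw [mem_biUnion]
    exact ⟨x, hx, mem_filter.2 ⟨mem_univ _, h1, h2⟩⟩
  calc _ ≤ (∑ x ∈ S, (univ.filter fun u : Fin k → (Fin k → Fin b) → Fin M =>
        x ∉ mt S dg k ∧ PBad L Y S dg nu y g err x u).card) * M :=
        Nat.mul_le_mul_right M ((card_le_card hsub).trans card_biUnion_le)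
    _ = ∑ x ∈ S, (univ.filter fun u : Fin k → (Fin k → Fin b) → Fin M =>
        x ∉ mt S dg k ∧ PBad L Y S dg nu y g err x u).card * M := sum_mul _ _ _
    _ ≤ ∑ x ∈ S, 2 * d * Fintype.card (Fin k → (Fin k → Fin b) → Fin M) := by
        refine sum_le_sum fun x hx => ?_
        by_cases hxk : x ∈ mt S dg k
        · rw [filter_eq_empty_iff.2 (fun u _ hu => hu.1 hxk), card_empty, Nat.zero_mul]
          exact Nat.zero_le _
        · refine le_trans (Nat.mul_le_mul_right M (card_le_card ?_))
            (plant_one hL hY S dg nu hnu y g hg herr hx hxk)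
          intro u hu
          rw [mem_filter] at hu ⊢
          exact ⟨mem_univ _, hu.2.2⟩
    _ = _ := by
        rw [sum_const, smul_eq_mul]
        ring

/-- The use: if the masks are not bad, all replacements are harmless. -/
theorem plant_use {L Y : ℕ} {S : Finset El} {dg : El → Fin k → Fin b} {nu : El → ℤ} {y : El → ℝ}
    {g : MvPolynomial El ℝ} {err : ℝ} {x : El} {u : Fin k → (Fin k → Fin b) → Fin M}
    (h : ¬ PBad L Y S dg nu y g err x u) (hlt : err < |MvPolynomial.eval (av L Y S u dg nu y) g|) {w : ℤ}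
    (h0 : 0 ≤ w) (hw : w < L) :
    err < |MvPolynomial.eval (Function.update (av L Y S u dg nu y) x
        (((L : ℤ) * strc Y u (dg x) + w : ℤ) : ℝ)) g| ∧
      SignType.sign (MvPolynomial.eval (Function.update (av L Y S u dg nu y) x
        (((L : ℤ) * strc Y u (dg x) + w : ℤ) : ℝ)) g) =
      SignType.sign (MvPolynomial.eval (av L Y S u dg nu y) g) := by
  by_contra hc
  exact h ⟨hlt, w, h0, hw, hc⟩

/-- Two polynomials with a difference of at most `err` have the same sign where one of them is larger. -/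
theorem sign_eq_of_close {a c err : ℝ} (h1 : err < |a|) (h2 : |c - a| ≤ err) :
    SignType.sign c = SignType.sign a := by
  have h3 := abs_le.1 h2
  rcases lt_abs.1 h1 with h | h
  · have h4 : 0 ≤ err := (abs_nonneg _).trans h2
    rw [sign_pos (by linarith), sign_pos (by linarith)]
  · have h4 : 0 ≤ err := (abs_nonneg _).trans h2
    rw [sign_neg (by linarith), sign_neg (by linarith)]

end Pool.Agent.Helper71.PL
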